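import Pool.Agent.H4.TA.Targets2

/-!
# MP_183c3b_co: rows QGT and E3L
-/

set_option autoImplicit false

open Finset Filter Topology Pool.Agent.H43.TC Pool.Agent.H4.TA

namespace Pool.Agent.H29.TAS

theorem pf_QGT (hQGL : T_QGL) (hGRO : T_GRO) : T_QGT := by
  intro C p q h
  obtain ⟨h1, h2⟩ := hQGL C p q h
  refine tendsto_order.2 ⟨fun a ha => ?_, fun a ha => ?_⟩
  · set ε : ℝ := 1 - a with hε
    have hε0 : 0 < ε := by linarith
    have hC0 : 0 < C := by linarith [h.pos]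
    set K : ℕ := ⌈4 * C / ε⌉₊ + 2 with hK
    have hK2 : 2 ≤ K := by omega
    have hK1 : 4 * C / ε ≤ (K : ℝ) - 1 := by
      have := Nat.le_ceil (4 * C / ε)
      rw [hK]
      push_cast
      linarith
    have hK0 : (0 : ℝ) < (K : ℝ) - 1 := lt_of_lt_of_le (by positivity) hK1
    have hCK : C / ((K : ℝ) - 1) ≤ ε / 4 := by
      rw [div_le_iff₀ hK0]
      rw [div_le_iff₀ hε0] at hK1
      linarith
    obtain ⟨n₀, hn₀⟩ := hGRO C p h.pos h.pn h.p0 h.pb K (ε / 4) (by omega) (by positivity)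
    filter_upwards [eventually_ge_atTop (max n₀ 1)] with n hn
    have hn1 : n₀ ≤ n := (le_max_left _ _).trans hn
    have hn2 : 1 ≤ n := (le_max_right _ _).trans hn
    have e1 := h2 K n hK2 hn2
    have e2 := mul_le_mul_of_nonneg_left (hn₀ n hn1) (h.qn n)
    have e3 : 1 - ε / 4 ≤ (1 + ε / 4) * (q n * ∑ j ∈ range (n + 1), p j) := by
      calc 1 - ε / 4 ≤ q n * ∑ j ∈ range (K * n + 1), p j := by linarith
        _ ≤ q n * ((1 + ε / 4) * ∑ j ∈ range (n + 1), p j) := e2
        _ = (1 + ε / 4) * (q n * ∑ j ∈ range (n + 1), p j) := by ring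
    by_contra hc
    rw [not_lt] at hc
    have e4 := mul_le_mul_of_nonneg_left hc (by positivity : 0 ≤ 1 + ε / 4)
    have e5 : a = 1 - ε := by rw [hε]; ring
    rw [e5] at e4
    nlinarith
  · exact Eventually.of_forall fun n => lt_of_le_of_lt (h1 n) ha

theorem pf_E3L (hTRS : T_TRS) (hAVQ : T_AVQ) : T_E3L := by
  intro k hk
  obtain ⟨γ, hγ, hq⟩ := hTRS k hk
  have he : ∀ s : ℕ, (avoid k s : ℝ) / (2 * k : ℝ) ^ s = qq k s := fun s =>
    (hAVQ k s (by omega)).symm
  refine ⟨γ, hγ, ?_, ?_⟩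
  · simp_rw [he]
    exact hq
  · have hr : ∀ t : ℕ, rng k t = ∑ s ∈ range (t + 1), qq k s := by
      intro t
      unfold rng
      exact sum_congr rfl fun s _ => he s
    have h1 : Tendsto (fun t : ℕ => (((t + 1 : ℕ) : ℝ))⁻¹ * ∑ i ∈ range (t + 1), qq k i) atTop
        (𝓝 γ) := hq.cesaro.comp (tendsto_add_atTop_nat 1)
    have h2 : Tendsto (fun t : ℕ => 1 + 1 / (t : ℝ)) atTop (𝓝 1) := by
      have := (tendsto_const_nhds (x := (1 : ℝ))).add tendsto_one_div_atTop_nhds_zero_nat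
      rwa [add_zero] at this
    have h3 := (h1.mul h2).div_const γ
    rw [mul_one, div_self hγ.ne'] at h3
    refine h3.congr' ?_
    filter_upwards [eventually_ge_atTop 1] with t ht
    have ht0 : (0 : ℝ) < t := by exact_mod_cast ht
    rw [hr t]
    push_cast
    field_simp

end Pool.Agent.H29.TAS
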